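import Mathlib
import Pool.Agent.Lib.MP_4dc1c3_nt.Literal

namespace Pool.Agent.Results.MP_4dc1c3_nt.Infinite

/-- For every infinite set `S` of positive integers and every `m`, some sum of squares of real
algebraic integers of `ℚ(ζ_n : n ∈ S)` is not a sum of `m` such squares. -/
theorem result (S : Set ℕ) (hSinf : S.Infinite) (hSpos : ∀ n ∈ S, 0 < n)
    (L : IntermediateField ℚ ℂ)
    (hL : L = IntermediateField.adjoin ℚ
      {z : ℂ | ∃ n ∈ S, z = Complex.exp (2 * Real.pi * Complex.I / (n : ℂ))}) (m : ℕ) :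
    ∃ (k : ℕ) (f : Fin k → ℂ), (∀ i, f i ∈ L ∧ (f i).im = 0 ∧ IsIntegral ℤ (f i)) ∧
      ∀ g : Fin m → ℂ, (∀ j, g j ∈ L ∧ (g j).im = 0 ∧ IsIntegral ℤ (g j)) →
        ∑ i, f i ^ 2 ≠ ∑ j, g j ^ 2 :=
  Pool.Agent.Lib.MP_4dc1c3_nt.literal S hSinf hSpos L hL m

end Pool.Agent.Results.MP_4dc1c3_nt.Infinite
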